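import Pool.Agent.helper16.T5.LUS

set_option autoImplicit false

namespace Pool.Agent.helper26.T5

open Finset NumberField Pool.Agent.helper3.FT Pool.Agent.helper47.RA Pool.Agent.T5

theorem LFT_mem (M : ℝ) (D : ℤ) : D ∈ LUS_S M ↔ -⌊M⌋ ≤ D ∧ D ≤ -1 ∧ IsFund D := by
  classical
  unfold LUS_S
  rw [mem_filter, mem_Icc, and_assoc]

/-- the number of tuples over one discriminant -/
theorem LFT_one (hTD : LTD) (δ κ N Y C₁ η τ : ℝ) (hδ : 0 < δ) (hδ1 : δ ≤ 11 / 100) (hκ : 0 < κ)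
    (hN : 512 ≤ N) (hη : 0 < η)
    (hC₁ : 1 ≤ C₁) (hdiv : ∀ n : ℕ, 0 < n → ((n.divisors.card : ℕ) : ℝ) ≤ C₁ * (n : ℝ) ^ η)
    (hY1 : N ^ (0.39 : ℝ) ≤ Y) (hY2 : Y ≤ N ^ (1 / 2 - δ))
    (hτ : τ = C₁ * (2 * N ^ (5 / 4 : ℝ)) ^ η) (D : ℤ) (hD : IsFund D) (f : Tpl → ℕ)
    (F : Finset Tpl)
    (hF : ∀ t ∈ F, Cen κ N Y (N ^ (1 / 2 + δ / 100)) t ∧ dis t = D * (f t : ℤ) ^ 2 ∧
      IsCoprime (f t : ℤ) (t.2.2.2 * lam t) ∧ N ^ (δ / 10000) < f t ∧
        (f t : ℝ) ≤ N ^ (1 / 2 + δ / 100) / Y) :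
    (F.card : ℝ) ≤ cA D Y * (τ * (10 * N ^ (δ / 100))) := by
  have hN0 : 0 < N := by linarith
  have hN1 : 1 < N := by linarith
  have hY0 : 1 ≤ Y := (Real.one_le_rpow hN1.le (by norm_num)).trans hY1
  set X := N ^ (1 / 2 + δ / 100) with hX
  have hX0 : 0 < X := by positivity
  have hτ0 : 0 ≤ τ := by rw [hτ]; positivity
  rcases F.eq_empty_or_nonempty with h0 | ⟨t₀, ht₀⟩
  · rw [h0, Finset.card_empty, Nat.cast_zero]
    positivity
  obtain ⟨K, i1, i2, Q, hfin, hdisc, hQD⟩ := exists_QF D hD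
  have hne : Nonempty (Fld D) := ⟨⟨K, Q, hfin, hdisc, hQD⟩⟩
  have hcA : cA D Y = (IA hne.some.K Y).ncard := by
    unfold cA
    rw [dif_pos hne]
  have hQ := hne.some.hD
  -- size of `D`
  have hfpos : ∀ t ∈ F, (0 : ℝ) < f t := fun t ht =>
    lt_trans (by positivity) (hF t ht).2.2.2.1
  have hdis : ∀ t ∈ F, (dis t : ℝ) = D * (f t : ℝ) ^ 2 := by
    intro t ht
    rw [(hF t ht).2.1]
    push_cast
    ring
  have hDneg : (0 : ℝ) < -(D : ℝ) := by
    have h1 := (hF t₀ ht₀).1.d1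
    rw [hdis t₀ ht₀] at h1
    have h2 := hfpos t₀ ht₀
    by_contra h3
    push Not at h3
    have : (0 : ℝ) ≤ D * (f t₀ : ℝ) ^ 2 := mul_nonneg (by linarith) (by positivity)
    linarith
  have hY4 : 4 * Y < -(D : ℝ) := by
    have h1 := (hF t₀ ht₀).1.d1
    rw [hdis t₀ ht₀] at h1
    have h2 := hfpos t₀ ht₀
    have h3 := (hF t₀ ht₀).2.2.2.2
    have h4 : (f t₀ : ℝ) ^ 2 ≤ (X / Y) ^ 2 := pow_le_pow_left₀ h2.le h3 2
    have h5 : N / 2 < -(D : ℝ) * (X / Y) ^ 2 := by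
      have := mul_le_mul_of_nonneg_left h4 hDneg.le
      linarith
    have hX2 : X ^ 2 = N * N ^ (δ / 50) := by
      rw [hX, ← Real.rpow_natCast, ← Real.rpow_mul hN0.le]
      have : N * N ^ (δ / 50) = N ^ (1 : ℝ) * N ^ (δ / 50) := by rw [Real.rpow_one]
      rw [this, ← Real.rpow_add hN0]
      congr 1
      push_cast
      ring
    have h6 : 8 * N ^ (δ / 50) ≤ Y := by
      have h7 : (8 : ℝ) ≤ N ^ (1 / 3 : ℝ) := by
        have h8 : (8 : ℝ) = 512 ^ (1 / 3 : ℝ) := by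
          rw [show (512 : ℝ) = 8 ^ (3 : ℝ) by norm_num, ← Real.rpow_mul (by norm_num)]
          norm_num
        rw [h8]
        exact Real.rpow_le_rpow (by norm_num) hN (by norm_num)
      calc 8 * N ^ (δ / 50) ≤ N ^ (1 / 3 : ℝ) * N ^ (δ / 50) :=
            mul_le_mul_of_nonneg_right h7 (by positivity)
        _ = N ^ (1 / 3 + δ / 50) := (Real.rpow_add hN0 _ _).symm
        _ ≤ N ^ (0.39 : ℝ) := Real.rpow_le_rpow_of_exponent_le hN1.le (by norm_num; linarith)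
        _ ≤ Y := hY1
    have h7 : N / 2 * Y ^ 2 < -(D : ℝ) * X ^ 2 := by
      have h8 : (X / Y) ^ 2 = X ^ 2 / Y ^ 2 := div_pow _ _ _
      rw [h8, mul_div_assoc', lt_div_iff₀ (by positivity)] at h5
      exact h5
    rw [hX2] at h7
    by_contra h9
    push Not at h9
    have hp : 0 < N ^ (δ / 50) := by positivity
    have h10 : -(D : ℝ) * (N * N ^ (δ / 50)) ≤ 4 * Y * (N * N ^ (δ / 50)) :=
      mul_le_mul_of_nonneg_right h9 (by positivity)
    have h11 : 4 * Y * (N * N ^ (δ / 50)) ≤ N / 2 * Y ^ 2 := by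
      have : N / 2 * Y ^ 2 - 4 * Y * (N * N ^ (δ / 50)) = N * Y / 2 * (Y - 8 * N ^ (δ / 50)) := by ring
      have h12 : 0 ≤ N * Y / 2 * (Y - 8 * N ^ (δ / 50)) := mul_nonneg (by positivity) (by linarith)
      linarith
    linarith
  have hY22 : 2 ≤ Y := by
    have h7 : (8 : ℝ) ≤ N ^ (1 / 3 : ℝ) := by
      have h8 : (8 : ℝ) = 512 ^ (1 / 3 : ℝ) := by
        rw [show (512 : ℝ) = 8 ^ (3 : ℝ) by norm_num, ← Real.rpow_mul (by norm_num)]
        norm_num
      rw [h8]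
      exact Real.rpow_le_rpow (by norm_num) hN (by norm_num)
    have h8 : N ^ (1 / 3 : ℝ) ≤ N ^ (0.39 : ℝ) :=
      Real.rpow_le_rpow_of_exponent_le hN1.le (by norm_num)
    linarith
  have hD4 : hne.some.Q.D < -4 := by
    rw [hQ]
    have : (4 : ℝ) < -(D : ℝ) := by linarith
    have : (D : ℝ) < -4 := by linarith
    exact_mod_cast this
  have habs : |(hne.some.Q.D : ℝ)| = -(D : ℝ) := by
    rw [hQ, abs_of_neg (by linarith)]
  have hB0 : 0 < √(N / (2 * (-(D : ℝ)))) := Real.sqrt_pos.2 (by positivity)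
  have key := hTD hne.some.K hne.some.Q hne.some.fin hD4 Y X (√(N / (2 * (-(D : ℝ))))) τ
    hY22 (by rw [hQ]; exact hY4) hX0 hB0 hτ0 (fun y hy hyy => by
      rw [habs] at hyy
      have h1 : (y : ℝ) ^ 2 ≤ 4 * Y ^ 5 := by
        have h2 : (y : ℝ) ^ 2 * 1 ≤ (y : ℝ) ^ 2 * (-(D : ℝ)) :=
          mul_le_mul_of_nonneg_left (by linarith) (sq_nonneg _)
        linarith
      have hYN : Y ≤ N ^ (1 / 2 : ℝ) := hY2.trans
        (Real.rpow_le_rpow_of_exponent_le hN1.le (by linarith))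
      have h3 : (y : ℝ) ^ 2 ≤ (2 * N ^ (5 / 4 : ℝ)) ^ 2 := by
        have h4 : Y ^ 5 ≤ (N ^ (1 / 2 : ℝ)) ^ 5 := pow_le_pow_left₀ (by linarith) hYN 5
        have h5 : (N ^ (1 / 2 : ℝ)) ^ 5 = (N ^ (5 / 4 : ℝ)) ^ 2 := by
          rw [← Real.rpow_natCast, ← Real.rpow_natCast, ← Real.rpow_mul hN0.le,
            ← Real.rpow_mul hN0.le]
          congr 1
          norm_num
        rw [mul_pow, ← h5]
        linarith
      have h6 : |(y : ℝ)| ≤ 2 * N ^ (5 / 4 : ℝ) := by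
        rw [← abs_of_nonneg (show (0 : ℝ) ≤ 2 * N ^ (5 / 4 : ℝ) by positivity)]
        exact sq_le_sq.1 h3
      have h7 : ((y.natAbs : ℕ) : ℝ) = |(y : ℝ)| := by
        rw [Nat.cast_natAbs]; push_cast; rfl
      refine (hdiv y.natAbs (Int.natAbs_pos.2 hy)).trans ?_
      rw [hτ, h7]
      exact mul_le_mul_of_nonneg_left (Real.rpow_le_rpow (abs_nonneg _) h6 hη.le) (by linarith))
    F (fun t ht => by
      obtain ⟨hC, hd, hco, hf1, hf2⟩ := hF t ht
      have hlam : (0 : ℝ) < lam t := lt_of_lt_of_le (by positivity) hC.l1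
      refine ⟨hC.tt, hC.z1, hC.z2, ?_, ?_, ?_, f t, ?_, ?_, ?_, hco⟩
      · have : (0 : ℝ) < t.2.2.2 := by have := hC.z1; linarith
        exact_mod_cast this
      · exact_mod_cast hlam
      · have h1 := hC.l2
        have h2 : √(-(dis t : ℝ)) ≤ √N := Real.sqrt_le_sqrt hC.d2
        have h3 : (lam t : ℝ) * √N ≤ X * √N := h1.trans (mul_le_mul_of_nonneg_left h2 hX0.le)
        exact le_of_mul_le_mul_right h3 (Real.sqrt_pos.2 hN0)
      · have := hfpos t ht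
        have h1 : 0 < f t := by exact_mod_cast this
        omega
      · rw [Real.sqrt_lt' (hfpos t ht), div_lt_iff₀ (by positivity)]
        have h1 := hC.d1
        rw [hdis t ht] at h1
        linarith
      · rw [hQ]; exact hd)
  have hBD : √(N / (2 * (-(D : ℝ)))) * √|(hne.some.Q.D : ℝ)| = √(N / 2) := by
    rw [habs, ← Real.sqrt_mul (by positivity)]
    congr 1
    rw [div_mul_eq_mul_div, div_eq_div_iff (by positivity) (by norm_num)]
    ring
  rw [hBD] at key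
  have h10 : 1 + 2 * Real.pi * X / √(N / 2) ≤ 10 * N ^ (δ / 100) := by
    have hs : √(N / 2) = N ^ (1 / 2 : ℝ) / √2 := by
      rw [Real.sqrt_div hN0.le, ← Real.sqrt_eq_rpow]
    have hXe : X = N ^ (1 / 2 : ℝ) * N ^ (δ / 100) := by rw [hX, Real.rpow_add hN0]
    rw [hs, hXe]
    have hp : 0 < N ^ (1 / 2 : ℝ) := by positivity
    have e : 2 * Real.pi * (N ^ (1 / 2 : ℝ) * N ^ (δ / 100)) / (N ^ (1 / 2 : ℝ) / √2) =
        2 * Real.pi * √2 * N ^ (δ / 100) := by field_simp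
    rw [e]
    have h1 : 1 ≤ N ^ (δ / 100) := Real.one_le_rpow hN1.le (by positivity)
    have h2 : Real.pi ≤ 3.15 := by have := Real.pi_lt_d2; linarith
    have h3 : √2 ≤ 1.4143 := by
      rw [Real.sqrt_le_left (by norm_num)]; norm_num
    have h4 : 2 * Real.pi * √2 ≤ 9 := by
      have h5 : Real.pi * √2 ≤ 3.15 * 1.4143 := mul_le_mul h2 h3 (Real.sqrt_nonneg _) (by norm_num)
      linarith
    nlinarith
  rw [hcA]
  refine key.trans ?_
  exact mul_le_mul_of_nonneg_left (mul_le_mul_of_nonneg_left h10 hτ0) (Nat.cast_nonneg _)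

theorem lft (hTD : LTD) (hUS : LUS) : LFT := by
  classical
  intro δ hδ κ hκ
  obtain ⟨C₁, hC₁, hdiv⟩ := card_divisors_le (δ / 200000) (by positivity)
  obtain ⟨C₂, hC₂, hus⟩ := hUS (δ / 200000) (by positivity)
  refine ⟨δ / 20000, max 512 ((20 * C₁ * C₂) ^ (100000 / (3 * δ))), by positivity, ?_⟩
  intro N Y hN0' hY1 hY2 F hF
  have hN : 512 ≤ N := (le_max_left _ _).trans hN0'
  have hNK : (20 * C₁ * C₂) ^ (100000 / (3 * δ)) ≤ N := (le_max_right _ _).trans hN0'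
  have hN0 : 0 < N := by linarith
  have hN1 : 1 < N := by linarith
  have hδ1 : δ ≤ 11 / 100 := by
    have := (Real.rpow_le_rpow_left_iff hN1).1 (hY1.trans hY2)
    norm_num at this
    linarith
  have hY0 : 1 ≤ Y := (Real.one_le_rpow hN1.le (by norm_num)).trans hY1
  set M := N ^ (1 - δ / 5000) with hM
  have hM1 : 1 ≤ M := Real.one_le_rpow hN1.le (by linarith)
  choose! f D hfD using fun t ht => (hF t ht).2
  set τ := C₁ * (2 * N ^ (5 / 4 : ℝ)) ^ (δ / 200000) with hτ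
  have hmaps : ∀ t ∈ F, D t ∈ LUS_S M := by
    intro t ht
    obtain ⟨hDf, hdis, hco, hf1, hf2⟩ := hfD t ht
    have hC := (hF t ht).1
    have hH : (0 : ℝ) < N ^ (δ / 10000) := by positivity
    have hf0 : (0 : ℝ) < f t := hH.trans hf1
    have hdr : (dis t : ℝ) = D t * (f t : ℝ) ^ 2 := by rw [hdis]; push_cast; ring
    have h1 := hC.d1
    have h2 := hC.d2
    rw [hdr] at h1 h2
    have hDneg : (0 : ℝ) < -(D t : ℝ) := by
      by_contra h3
      push Not at h3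
      have : (0 : ℝ) ≤ D t * (f t : ℝ) ^ 2 := mul_nonneg (by linarith) (by positivity)
      linarith
    have hH2 : (N ^ (δ / 10000)) ^ 2 ≤ (f t : ℝ) ^ 2 := pow_le_pow_left₀ hH.le hf1.le 2
    have hHe : (N ^ (δ / 10000)) ^ 2 * M = N := by
      rw [hM, ← Real.rpow_natCast, ← Real.rpow_mul hN0.le, ← Real.rpow_add hN0]
      have : δ / 10000 * ((2 : ℕ) : ℝ) + (1 - δ / 5000) = 1 := by push_cast; ring
      rw [this, Real.rpow_one]
    have h3 : -(D t : ℝ) * (N ^ (δ / 10000)) ^ 2 ≤ N := by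
      have := mul_le_mul_of_nonneg_left hH2 hDneg.le
      linarith
    have h4 : -(D t : ℝ) ≤ M := by
      have h5 : (N ^ (δ / 10000)) ^ 2 * -(D t : ℝ) ≤ (N ^ (δ / 10000)) ^ 2 * M := by
        rw [hHe]; linarith
      exact le_of_mul_le_mul_left h5 (by positivity)
    rw [LFT_mem]
    refine ⟨?_, ?_, hDf⟩
    · have h5 : -D t ≤ ⌊M⌋ := by
        rw [Int.le_floor]
        push_cast
        exact h4
      omega
    · have h5 : (D t : ℝ) < 0 := by linarith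
      have h6 : D t < 0 := by exact_mod_cast h5
      omega
  have hcard : (F.card : ℝ) = ∑ E ∈ LUS_S M, ((F.filter (fun t => D t = E)).card : ℝ) := by
    rw [Finset.card_eq_sum_card_fiberwise (f := D) (t := LUS_S M) (fun t ht => hmaps t ht)]
    push_cast
    rfl
  have hone : ∀ E ∈ LUS_S M, ((F.filter (fun t => D t = E)).card : ℝ) ≤
      cA E Y * (τ * (10 * N ^ (δ / 100))) := by
    intro E hE
    refine LFT_one hTD δ κ N Y C₁ (δ / 200000) τ hδ hδ1 hκ hN (by positivity) hC₁ hdiv hY1 hY2 hτ E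
      ((LFT_mem M E).1 hE).2.2 f _ (fun t ht => ?_)
    rw [mem_filter] at ht
    obtain ⟨ht1, ht2⟩ := ht
    have h1 := hfD t ht1
    rw [ht2] at h1
    exact ⟨(hF t ht1).1, h1.2⟩
  have hsum : (F.card : ℝ) ≤ (∑ E ∈ LUS_S M, (cA E Y : ℝ)) * (τ * (10 * N ^ (δ / 100))) := by
    rw [hcard, Finset.sum_mul]
    exact Finset.sum_le_sum hone
  have hus' : ∑ E ∈ LUS_S M, (cA E Y : ℝ) ≤ C₂ * (M * Y) ^ (δ / 200000) * (Y * √M) :=
    hus M Y hM1 hY0
  have hτ0 : 0 ≤ τ * (10 * N ^ (δ / 100)) := by rw [hτ]; positivity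
  have hMN : M ≤ N := by
    rw [hM]
    calc N ^ (1 - δ / 5000) ≤ N ^ (1 : ℝ) := Real.rpow_le_rpow_of_exponent_le hN1.le (by linarith)
      _ = N := Real.rpow_one N
  have hYN : Y ≤ N := hY2.trans (by
    calc N ^ (1 / 2 - δ) ≤ N ^ (1 : ℝ) := Real.rpow_le_rpow_of_exponent_le hN1.le (by linarith)
      _ = N := Real.rpow_one N)
  have h1 : (M * Y) ^ (δ / 200000) ≤ N ^ (2 * (δ / 200000)) := by
    calc (M * Y) ^ (δ / 200000) ≤ (N ^ (2 : ℝ)) ^ (δ / 200000) := by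
          refine Real.rpow_le_rpow (by positivity) ?_ (by positivity)
          have h0 : N ^ (2 : ℝ) = N * N := by rw [Real.rpow_two]; ring
          rw [h0]
          exact mul_le_mul hMN hYN (by linarith) hN0.le
      _ = N ^ (2 * (δ / 200000)) := (Real.rpow_mul hN0.le _ _).symm
  have h2 : τ ≤ C₁ * (2 * N ^ (2 * (δ / 200000))) := by
    rw [hτ, Real.mul_rpow (by norm_num) (by positivity)]
    have h3 : (2 : ℝ) ^ (δ / 200000) ≤ 2 := by
      calc (2 : ℝ) ^ (δ / 200000) ≤ 2 ^ (1 : ℝ) :=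
            Real.rpow_le_rpow_of_exponent_le (by norm_num) (by linarith)
        _ = 2 := Real.rpow_one 2
    have h4 : (N ^ (5 / 4 : ℝ)) ^ (δ / 200000) ≤ N ^ (2 * (δ / 200000)) := by
      rw [← Real.rpow_mul hN0.le]
      exact Real.rpow_le_rpow_of_exponent_le hN1.le (by nlinarith)
    exact mul_le_mul_of_nonneg_left (mul_le_mul h3 h4 (by positivity) (by norm_num)) (by linarith)
  have hsqM : √M = N ^ (1 / 2 - δ / 10000) := by
    rw [Real.sqrt_eq_rpow, hM, ← Real.rpow_mul hN0.le]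
    congr 1
    ring
  have h3 : (F.card : ℝ) ≤ (C₂ * N ^ (2 * (δ / 200000)) * (Y * N ^ (1 / 2 - δ / 10000))) *
      ((C₁ * (2 * N ^ (2 * (δ / 200000)))) * (10 * N ^ (δ / 100))) := by
    refine hsum.trans ?_
    refine mul_le_mul ?_ ?_ hτ0 (by positivity)
    · refine hus'.trans ?_
      rw [hsqM]
      refine mul_le_mul_of_nonneg_right ?_ (by positivity)
      exact mul_le_mul_of_nonneg_left h1 (by linarith)
    · exact mul_le_mul_of_nonneg_right h2 (by positivity)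
  have h4 : (C₂ * N ^ (2 * (δ / 200000)) * (Y * N ^ (1 / 2 - δ / 10000))) *
      ((C₁ * (2 * N ^ (2 * (δ / 200000)))) * (10 * N ^ (δ / 100))) =
      (20 * C₁ * C₂) * (N ^ (2 * (δ / 200000)) * N ^ (1 / 2 - δ / 10000) *
        N ^ (2 * (δ / 200000)) * N ^ (δ / 100)) * Y := by ring
  have h5 : N ^ (2 * (δ / 200000)) * N ^ (1 / 2 - δ / 10000) *
        N ^ (2 * (δ / 200000)) * N ^ (δ / 100) =
      N ^ (-(3 * δ / 100000)) * (N ^ (-(δ / 20000)) * N ^ (1 / 2 + δ / 100)) := by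
    rw [← Real.rpow_add hN0, ← Real.rpow_add hN0, ← Real.rpow_add hN0, ← Real.rpow_add hN0,
      ← Real.rpow_add hN0]
    congr 1
    ring
  have h6 : (20 * C₁ * C₂) * N ^ (-(3 * δ / 100000)) ≤ 1 := by
    rw [Real.rpow_neg hN0.le, ← div_eq_mul_inv, div_le_one (by positivity)]
    have h7 : ((20 * C₁ * C₂) ^ (100000 / (3 * δ))) ^ (3 * δ / 100000) ≤ N ^ (3 * δ / 100000) :=
      Real.rpow_le_rpow (by positivity) hNK (by positivity)
    rw [← Real.rpow_mul (by positivity)] at h7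
    have h8 : 100000 / (3 * δ) * (3 * δ / 100000) = 1 := by field_simp
    rw [h8, Real.rpow_one] at h7
    exact h7
  rw [h4, h5] at h3
  refine h3.trans ?_
  have h9 : (20 * C₁ * C₂) * (N ^ (-(3 * δ / 100000)) * (N ^ (-(δ / 20000)) *
      N ^ (1 / 2 + δ / 100))) * Y = ((20 * C₁ * C₂) * N ^ (-(3 * δ / 100000))) *
      (N ^ (-(δ / 20000)) * (Y * N ^ (1 / 2 + δ / 100))) := by ring
  rw [h9]
  calc ((20 * C₁ * C₂) * N ^ (-(3 * δ / 100000))) * (N ^ (-(δ / 20000)) * (Y * N ^ (1 / 2 + δ / 100)))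
      ≤ 1 * (N ^ (-(δ / 20000)) * (Y * N ^ (1 / 2 + δ / 100))) :=
        mul_le_mul_of_nonneg_right h6 (by positivity)
    _ = _ := one_mul _

end Pool.Agent.helper26.T5
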