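import Pool.Agent.helper26.T5.SpecB

set_option autoImplicit false

namespace Pool.Agent.helper26.T5

open NumberField Pool.Agent.helper3.FT Pool.Agent.helper47.RA Pool.Agent.T5

theorem LLOC_sum (P : ℕ × ℕ → Prop) [DecidablePred P] (s : Finset (ℕ × ℕ)) (c : ℝ) :
    ∑ v ∈ s, (if P v then c else 0) = (s.filter P).card * c := by
  rw [← Finset.sum_filter, Finset.sum_const, nsmul_eq_mul]

theorem LLOC_dvd {p a b : ℤ} (h : p ∣ a - b) : p ∣ a ↔ p ∣ b :=
  ⟨fun h1 => by have := dvd_sub h1 h; rwa [sub_sub_cancel] at this,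
   fun h1 => by have := dvd_add h h1; rwa [sub_add_cancel] at this⟩

theorem LLOC_per (p : ℕ) (hp : p.Prime) (F : ℤ → ℤ → ℝ) (P : ℤ → ℤ → Prop) (c : ℝ) (n : ℕ)
    (hc : 0 ≤ c) (h1 : ∀ x y, P x y → F x y = c) (h2 : ∀ x y, ¬ P x y → F x y = 0)
    (hx : ∀ x y, P (x + p) y ↔ P x y) (hy : ∀ x y, P x (y + p) ↔ P x y)
    (dec : DecidablePred (fun v : ℕ × ℕ => P v.1 v.2))
    (hn : ((sq p).filter (fun v : ℕ × ℕ => P v.1 v.2)).card = n) (hcn : (n : ℝ) * c = (p : ℝ) ^ 2) :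
    Per p F := by
  refine ⟨fun x y => ?_, fun x y => ?_, fun x y => ?_, ?_⟩
  · by_cases h : P x y
    · rw [h1 x y h]; exact hc
    · rw [h2 x y h]
  · by_cases h : P x y
    · rw [h1 x y h, h1 _ _ ((hx x y).2 h)]
    · rw [h2 x y h, h2 _ _ (fun h' => h ((hx x y).1 h'))]
  · by_cases h : P x y
    · rw [h1 x y h, h1 _ _ ((hy x y).2 h)]
    · rw [h2 x y h, h2 _ _ (fun h' => h ((hy x y).1 h'))]
  · have e : ∑ x ∈ Finset.range p, ∑ y ∈ Finset.range p, F x y =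
        ∑ v ∈ sq p, (if P v.1 v.2 then c else 0) := by
      unfold sq
      rw [Finset.sum_product]
      refine Finset.sum_congr rfl (fun x _ => Finset.sum_congr rfl (fun y _ => ?_))
      by_cases h : P x y
      · rw [h1 x y h, if_pos h]
      · rw [h2 x y h, if_neg h]
    rw [e, LLOC_sum (fun v : ℕ × ℕ => P v.1 v.2), hn, hcn]

theorem lloc (hQF : LQF) (hAW : LAW) (hXW : LXW) (hPA : LPA) (hQ1 : LQ1) (hQ2 : LQ2) (hQ3 : LQ3) :
    LLOC := by
  intro K _ _ Q a e₁ e₂ hD hprim ha hRB p hp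
  have hZ : 0 < Ideal.absNorm a := Nat.pos_of_ne_zero (by rw [Ne, Ideal.absNorm_eq_zero_iff]; exact ha)
  obtain ⟨A, B, C, hdisc, hq⟩ := hQF K Q a e₁ e₂ hD ha hRB
  have hp1 : (1 : ℝ) < p := by exact_mod_cast hp.one_lt
  have hp0 : (0 : ℝ) < (p : ℝ) - 1 := by linarith
  have hmem : ∀ x y : ℤ, (x * e₁ + y * e₂ : 𝓞 K) ∈ a ^ 2 := fun x y =>
    Ideal.add_mem _ (Ideal.mul_mem_left _ _ hRB.m1) (Ideal.mul_mem_left _ _ hRB.m2)
  have hY : ∀ x y : ℤ, Q.Y (x * e₁ + y * e₂ : 𝓞 K) = Q.Y e₁ * x + Q.Y e₂ * y := by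
    intro x y
    rw [Q.Y_add, Q.Y_int_mul, Q.Y_int_mul]; ring
  have hY0 : Q.Y (0 : 𝓞 K) = 0 := by
    have := Q.Y_int 0
    rwa [Int.cast_zero] at this
  have hnn0 : nn (0 : 𝓞 K) = 0 := by
    unfold nn
    rw [Ideal.span_singleton_eq_bot.2 rfl, Ideal.absNorm_bot]
  have hlam0 : lamI a (0 : 𝓞 K) = 0 := by
    unfold lamI
    rw [Ideal.span_singleton_eq_bot.2 rfl, Ideal.absNorm_bot, Nat.zero_div]
  have hlam : ∀ x y : ℤ, (lamI a (x * e₁ + y * e₂ : 𝓞 K) : ℤ) = A * x ^ 2 + B * x * y + C * y ^ 2 := by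
    intro x y
    have h1 := hq x y
    have hZ2 : ((Ideal.absNorm a : ℤ)) ^ 2 ≠ 0 := by
      have : (0 : ℤ) < Ideal.absNorm a := by exact_mod_cast hZ
      positivity
    by_cases h0 : (x * e₁ + y * e₂ : 𝓞 K) = 0
    · rw [h0, hnn0] at h1
      rw [h0, hlam0]
      push_cast at h1 ⊢
      rcases mul_eq_zero.1 h1.symm with h2 | h2
      · exact absurd h2 hZ2
      · exact h2.symm
    · have h2 := (hAW K Q a _ p hprim ha hp h0 (hmem x y)).1
      rw [h2] at h1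
      push_cast at h1
      exact mul_left_cancel₀ hZ2 h1
  by_cases hpZ : p ∣ Ideal.absNorm a
  · have hal : ∀ x y : ℤ, alw Q p a (x * e₁ + y * e₂ : 𝓞 K) ↔
        ¬ (p : ℤ) ∣ A * x ^ 2 + B * x * y + C * y ^ 2 := by
      intro x y
      by_cases h0 : (x * e₁ + y * e₂ : 𝓞 K) = 0
      · have h1 : A * x ^ 2 + B * x * y + C * y ^ 2 = 0 := by
          rw [← hlam x y, h0, hlam0]; rfl
        rw [h1, h0]
        refine ⟨fun h => ?_, fun h => absurd (dvd_zero _) h⟩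
        unfold alw at h
        rw [hY0, hlam0] at h
        rcases h with h | h
        · exact absurd (dvd_zero _) h.1
        · exact absurd (dvd_zero _) h.2.2
      · rw [(hAW K Q a _ p hprim ha hp h0 (hmem x y)).2.1 hpZ, ← hlam x y, Int.natCast_dvd_natCast]
    have hx : ∀ x y : ℤ, ¬ (p : ℤ) ∣ A * (x + p) ^ 2 + B * (x + p) * y + C * y ^ 2 ↔
        ¬ (p : ℤ) ∣ A * x ^ 2 + B * x * y + C * y ^ 2 := by
      intro x y
      refine not_congr (LLOC_dvd ⟨A * (2 * x + p) + B * y, by ring⟩)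
    have hy : ∀ x y : ℤ, ¬ (p : ℤ) ∣ A * x ^ 2 + B * x * (y + p) + C * (y + p) ^ 2 ↔
        ¬ (p : ℤ) ∣ A * x ^ 2 + B * x * y + C * y ^ 2 := by
      intro x y
      refine not_congr (LLOC_dvd ⟨B * x + C * (2 * y + p), by ring⟩)
    by_cases hpD : (p : ℤ) ∣ Q.D
    · refine LLOC_per p hp _ (fun x y => ¬ (p : ℤ) ∣ A * x ^ 2 + B * x * y + C * y ^ 2)
        ((p : ℝ) / (p - 1)) (p ^ 2 - p) (by positivity) (fun x y h => ?_) (fun x y h => ?_) hx hy
        (fun v => inferInstance) ?_ ?_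
      · rw [if_pos ((hal x y).2 h), if_neg (fun h' => h'.2 hpD)]
      · rw [if_neg (fun h' => h ((hal x y).1 h'))]
      · have := hQ3 p hp A B C (by rw [hdisc]; exact Q.hD) (by rw [hdisc]; exact hpD)
        simp only [← this]
      · have : p ≤ p ^ 2 := by nlinarith [hp.one_lt]
        rw [Nat.cast_sub this]
        push_cast
        field_simp
    · refine LLOC_per p hp _ (fun x y => ¬ (p : ℤ) ∣ A * x ^ 2 + B * x * y + C * y ^ 2)
        (((p : ℝ) / (p - 1)) ^ 2) ((p - 1) ^ 2) (by positivity) (fun x y h => ?_)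
        (fun x y h => ?_) hx hy (fun v => inferInstance) ?_ ?_
      · rw [if_pos ((hal x y).2 h), if_pos ⟨hpZ, hpD⟩]
      · rw [if_neg (fun h' => h ((hal x y).1 h'))]
      · have hnorm := hPA K Q a p hprim ha hp hpZ
        have hb := (hXW K Q _ p hp hnorm).2.2.2
        have := hQ2 p hp A B C (by rw [hdisc]; exact hpD) (by rw [hdisc]; exact hb)
        simp only [← this]
      · push_cast [Nat.cast_sub hp.one_lt.le]
        field_simp
  · have hal : ∀ x y : ℤ, alw Q p a (x * e₁ + y * e₂ : 𝓞 K) ↔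
        ¬ (p : ℤ) ∣ Q.Y e₁ * x + Q.Y e₂ * y := by
      intro x y
      by_cases h0 : (x * e₁ + y * e₂ : 𝓞 K) = 0
      · have h1 : Q.Y e₁ * x + Q.Y e₂ * y = 0 := by
          rw [← hY x y, h0, hY0]
        rw [h1, h0]
        refine ⟨fun h => ?_, fun h => absurd (dvd_zero _) h⟩
        unfold alw at h
        rw [hY0, hlam0] at h
        rcases h with h | h
        · exact absurd (dvd_zero _) h.1
        · exact absurd (dvd_zero _) h.2.2
      · rw [(hAW K Q a _ p hprim ha hp h0 (hmem x y)).2.2 hpZ, hY x y]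
    have hx : ∀ x y : ℤ, ¬ (p : ℤ) ∣ Q.Y e₁ * (x + p) + Q.Y e₂ * y ↔
        ¬ (p : ℤ) ∣ Q.Y e₁ * x + Q.Y e₂ * y := by
      intro x y
      refine not_congr (LLOC_dvd ⟨Q.Y e₁, by ring⟩)
    have hy : ∀ x y : ℤ, ¬ (p : ℤ) ∣ Q.Y e₁ * x + Q.Y e₂ * (y + p) ↔
        ¬ (p : ℤ) ∣ Q.Y e₁ * x + Q.Y e₂ * y := by
      intro x y
      refine not_congr (LLOC_dvd ⟨Q.Y e₂, by ring⟩)
    have hndiv : ¬ ((p : ℤ) ∣ Q.Y e₁ ∧ (p : ℤ) ∣ Q.Y e₂) := by
      rintro ⟨h1, h2⟩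
      have h3 := Q.h96_Y_mul p (Q.h96_Y_cj p h1) h2
      have h4 := (dvd_abs _ _).2 h3
      rw [hRB.det, map_pow] at h4
      exact hpZ (hp.dvd_of_dvd_pow (Int.natCast_dvd_natCast.1 h4))
    refine LLOC_per p hp _ (fun x y => ¬ (p : ℤ) ∣ Q.Y e₁ * x + Q.Y e₂ * y)
      ((p : ℝ) / (p - 1)) (p ^ 2 - p) (by positivity) (fun x y h => ?_) (fun x y h => ?_) hx hy
      (fun v => inferInstance) ?_ ?_
    · rw [if_pos ((hal x y).2 h), if_neg (fun h' => hpZ h'.1)]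
    · rw [if_neg (fun h' => h ((hal x y).1 h'))]
    · have := hQ1 p hp _ _ hndiv
      simp only [← this]
    · have : p ≤ p ^ 2 := by nlinarith [hp.one_lt]
      rw [Nat.cast_sub this]
      push_cast
      field_simp

end Pool.Agent.helper26.T5
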