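import Pool.Agent.helper26.T5.SpecB

set_option autoImplicit false

namespace Pool.Agent.helper26.T5

open NumberField Pool.Agent.helper3.FT Pool.Agent.helper47.RA Pool.Agent.T5

/-- `cj α * β` is a multiple of the square of the norm of `a` for `α, β ∈ a ^ 2` -/
theorem LRM_div {K : Type} [Field K] [NumberField K] (Q : QF K) (a : Ideal (𝓞 K)) {α β : 𝓞 K}
    (hα : α ∈ a ^ 2) (hβ : β ∈ a ^ 2) :
    ∃ δ : 𝓞 K, Q.cj α * β = (((Ideal.absNorm a : ℤ) ^ 2 : ℤ) : 𝓞 K) * δ := by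
  have h1 : Q.cj α ∈ Q.bar (a ^ 2) := Ideal.mem_map_of_mem Q.cj hα
  have h2 : Q.cj α * β ∈ Q.bar (a ^ 2) * a ^ 2 := Ideal.mul_mem_mul h1 hβ
  have h3 : Q.bar (a ^ 2) * a ^ 2 = Ideal.span {(((Ideal.absNorm a : ℤ) ^ 2 : ℤ) : 𝓞 K)} := by
    rw [Q.bar_pow, ← mul_pow, mul_comm, Q.mul_bar, Ideal.span_singleton_pow]
    push_cast
    rfl
  rw [h3, Ideal.mem_span_singleton] at h2
  exact h2

theorem LRM_nn_mul {K : Type} [Field K] [NumberField K] (x y : 𝓞 K) : nn (x * y) = nn x * nn y := by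
  unfold nn
  rw [← Ideal.span_singleton_mul_span_singleton, map_mul]

theorem LRM_nn_cj {K : Type} [Field K] [NumberField K] (Q : QF K) (x : 𝓞 K) : nn (Q.cj x) = nn x := by
  have h1 := Q.hnorm (Q.cj x)
  have h2 := Q.hnorm x
  rw [Q.v₁_cj, Q.v₂_cj, mul_comm] at h1
  have : ((nn (Q.cj x) : ℕ) : ℝ) = nn x := by
    unfold nn
    rw [h1, h2]
  exact_mod_cast this

theorem lrm : LRM := by
  intro K _ _ Q a r α β hD ha hsq h2 hp hα hβ hnα hnβ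
  have hZ : 0 < Ideal.absNorm a := Nat.pos_of_ne_zero (by rw [Ne, Ideal.absNorm_eq_zero_iff]; exact ha)
  obtain ⟨δ, hδ⟩ := LRM_div Q a hα hβ
  have hZ2 : nn ((((Ideal.absNorm a : ℤ) ^ 2 : ℤ) : 𝓞 K)) = (Ideal.absNorm a ^ 2) ^ 2 := by
    have h1 := Q.hnorm ((((Ideal.absNorm a : ℤ) ^ 2 : ℤ) : 𝓞 K))
    rw [Q.v₁_int, Q.v₂_int] at h1
    have : ((nn ((((Ideal.absNorm a : ℤ) ^ 2 : ℤ) : 𝓞 K)) : ℕ) : ℝ) =
        (((Ideal.absNorm a ^ 2) ^ 2 : ℕ) : ℝ) := by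
      unfold nn
      rw [h1, abs_mul_abs_self]
      push_cast
      ring
    exact_mod_cast this
  have hmul : nn α * nn β = (Ideal.absNorm a ^ 2) ^ 2 * nn δ := by
    rw [← LRM_nn_cj Q α, ← LRM_nn_mul, hδ, LRM_nn_mul, hZ2]
  have hr2 : r ^ 2 ∣ nn δ := by
    have h3 : (r * Ideal.absNorm a ^ 2) * (r * Ideal.absNorm a ^ 2) ∣
        (Ideal.absNorm a ^ 2) ^ 2 * nn δ := by
      rw [← hmul]; exact mul_dvd_mul hnα hnβ
    have h4 : (r * Ideal.absNorm a ^ 2) * (r * Ideal.absNorm a ^ 2) =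
        (Ideal.absNorm a ^ 2) ^ 2 * r ^ 2 := by ring
    rw [h4] at h3
    exact Nat.dvd_of_mul_dvd_mul_left (by positivity) h3
  obtain ⟨x, hx⟩ := Q.exists_re δ
  set y := Q.Y δ with hy
  have hnorm : (nn δ : ℤ) = |x ^ 2 + Q.t * x * y - Q.k * y ^ 2| := by
    refine Q.absNorm_eq δ _ ?_
    rw [hx]
    exact Q.norm_form x y
  have hr2' : (r : ℤ) ^ 2 ∣ x ^ 2 + Q.t * x * y - Q.k * y ^ 2 := by
    rw [← dvd_abs, ← hnorm]
    exact_mod_cast hr2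
  have hid : 4 * (x ^ 2 + Q.t * x * y - Q.k * y ^ 2) = (2 * x + Q.t * y) ^ 2 - Q.D * y ^ 2 := by
    rw [Q.hk]
    linear_combination (-(y ^ 2)) * Q.t_sq
  have hpy : ∀ p ∈ r.primeFactors, (p : ℤ) ∣ y := by
    intro p hpr
    have hpp : p.Prime := Nat.prime_of_mem_primeFactors hpr
    have hpd : p ∣ r := Nat.dvd_of_mem_primeFactors hpr
    have hpD := hp p hpp hpd
    have hp' : Prime (p : ℤ) := Nat.prime_iff_prime_int.1 hpp
    have hp2 : (p : ℤ) ^ 2 ∣ 4 * (x ^ 2 + Q.t * x * y - Q.k * y ^ 2) := by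
      refine Dvd.dvd.mul_left ?_ 4
      refine dvd_trans ?_ hr2'
      exact pow_dvd_pow_of_dvd (Int.natCast_dvd_natCast.2 hpd) 2
    rw [hid] at hp2
    have hp1 : (p : ℤ) ∣ (2 * x + Q.t * y) ^ 2 := by
      have h5 : (p : ℤ) ∣ (2 * x + Q.t * y) ^ 2 - Q.D * y ^ 2 :=
        dvd_trans (dvd_pow_self _ two_ne_zero) hp2
      have h6 : (p : ℤ) ∣ Q.D * y ^ 2 := Dvd.dvd.mul_right hpD _
      have := dvd_add h5 h6
      rwa [sub_add_cancel] at this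
    have hp1' := hp'.dvd_of_dvd_pow hp1
    have hp3 : (p : ℤ) ^ 2 ∣ Q.D * y ^ 2 := by
      have h7 := pow_dvd_pow_of_dvd hp1' 2
      have := dvd_sub h7 hp2
      rwa [sub_sub_cancel] at this
    by_contra hny
    have hcop : IsCoprime ((p : ℤ) ^ 2) (y ^ 2) :=
      (IsCoprime.pow ((Int.prime_iff_natAbs_prime.2 (by simpa using hpp)).coprime_iff_not_dvd.2 hny))
    have hp4 : (p : ℤ) ^ 2 ∣ Q.D := hcop.dvd_of_dvd_mul_right hp3
    rcases Q.hD.sq_dvd hp4 with h8 | ⟨_, _, _, h8⟩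
    · exact hp'.not_isUnit h8
    · have h9 : p = 2 := by
        rcases h8 with h8 | h8
        · exact_mod_cast h8
        · have : (0 : ℤ) ≤ p := Int.natCast_nonneg p
          omega
      exact h2 (h9 ▸ hpd)
  have hry : (r : ℤ) ∣ y := by
    have h10 : (∏ p ∈ r.primeFactors, p) ∣ y.natAbs :=
      Finset.prod_primes_dvd y.natAbs (fun p hpr => Nat.prime_iff.1 (Nat.prime_of_mem_primeFactors hpr))
        (fun p hpr => Int.natCast_dvd.1 (hpy p hpr))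
    rw [Nat.prod_primeFactors_of_squarefree hsq] at h10
    exact Int.natCast_dvd.2 h10
  rw [hδ, Q.Y_int_mul]
  push_cast
  rw [mul_comm]
  exact mul_dvd_mul (dvd_refl _) hry

end Pool.Agent.helper26.T5
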