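import Pool.Agent.helper26.T5.SpecC

set_option autoImplicit false

namespace Pool.Agent.helper26.T5

open Finset NumberField Pool.Agent.helper3.FT Pool.Agent.helper47.RA Pool.Agent.T5

open Classical in
/-- the fundamental discriminants up to `M` -/
noncomputable def LUS_S (M : ℝ) : Finset ℤ := (Icc (-⌊M⌋) (-1)).filter IsFund

theorem LUS_step (g : ℤ → ℝ) (hg : ∀ D, 0 ≤ g D) (M : ℝ) :
    ∑ D ∈ LUS_S M, g D ≤ ∑ D ∈ DN M, g D + ∑ D ∈ LUS_S (M / 2), g D := by
  classical
  have hsub : LUS_S M ⊆ DN M ∪ LUS_S (M / 2) := by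
    intro D hD
    unfold LUS_S at hD ⊢
    rw [mem_filter, mem_Icc] at hD
    obtain ⟨⟨h1, h2⟩, h3⟩ := hD
    rw [mem_union]
    by_cases h : M / 2 < -(D : ℝ)
    · left
      unfold DN
      rw [mem_filter, mem_Icc]
      exact ⟨⟨h1, h2⟩, h3, h⟩
    · right
      rw [mem_filter, mem_Icc]
      refine ⟨⟨?_, h2⟩, h3⟩
      have h4 : -D ≤ ⌊M / 2⌋ := by
        rw [Int.le_floor]
        push_cast
        exact not_lt.1 h
      omega
  have h1 := Finset.sum_le_sum_of_subset_of_nonneg (f := g) hsub (fun D _ _ => hg D)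
  have h2 := Finset.sum_union_inter (s₁ := DN M) (s₂ := LUS_S (M / 2)) (f := g)
  have h3 : 0 ≤ ∑ D ∈ DN M ∩ LUS_S (M / 2), g D :=
    Finset.sum_nonneg (fun D _ => hg D)
  linarith

theorem lus (hU : U_stmt) : LUS := by
  intro ε hε
  obtain ⟨C, hC, hb⟩ := hU ε hε
  refine ⟨4 * C, by linarith, fun M Y hM hY => ?_⟩
  have key : ∀ n : ℕ, ∀ M : ℝ, 1 ≤ M → M < 2 ^ n →
      ∑ D ∈ LUS_S M, (cA D Y : ℝ) ≤ 4 * C * (M * Y) ^ ε * (Y * √M) := by
    intro n
    induction n with
    | zero => intro M h1 h2; rw [pow_zero] at h2; linarith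
    | succ n ih =>
      intro M h1 h2
      have hs := LUS_step (fun D => (cA D Y : ℝ)) (fun D => Nat.cast_nonneg _) M
      have hN := hb M Y h1 hY
      have hMY : 0 ≤ (M * Y) ^ ε * (Y * √M) := by positivity
      by_cases h : 1 ≤ M / 2
      · have h3 := ih (M / 2) h (by rw [pow_succ] at h2; linarith)
        have h4 : (M / 2 * Y) ^ ε ≤ (M * Y) ^ ε :=
          Real.rpow_le_rpow (by positivity) (by nlinarith) hε.le
        have h5 : √(M / 2) ≤ (3 / 4) * √M := by
          rw [Real.sqrt_le_left (by positivity), mul_pow, Real.sq_sqrt (by linarith)]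
          nlinarith
        have h6 : (M / 2 * Y) ^ ε * (Y * √(M / 2)) ≤ (M * Y) ^ ε * (Y * ((3 / 4) * √M)) := by
          gcongr
        have h7 : (M * Y) ^ ε * (Y * ((3 / 4) * √M)) = (3 / 4) * ((M * Y) ^ ε * (Y * √M)) := by ring
        nlinarith
      · have h3 : LUS_S (M / 2) = ∅ := by
          unfold LUS_S
          have h4 : ⌊M / 2⌋ = 0 := by
            rw [Int.floor_eq_zero_iff]
            exact ⟨by linarith, by push Not at h; linarith⟩
          rw [h4]
          rfl
        rw [h3, Finset.sum_empty] at hs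
        nlinarith
  obtain ⟨n, hn⟩ := pow_unbounded_of_one_lt M (by norm_num : (1 : ℝ) < 2)
  exact key n M hM hn

end Pool.Agent.helper26.T5
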